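import Pool.Agent.Helper73.HM.St

/-! # HM, module CF: cofinality less than `κ` is definable -/

namespace Pool.Agent.Helper14.HM

open Ordinal Cardinal ZFSet Order Pool.Agent.Helper73.HODC Pool.Agent.Helper73.HE
  Pool.Agent.Helper73.HM

theorem cof_lt_iff {κ : Cardinal.{0}} {σ : Ordinal.{0}} : σ.cof < κ ↔
    ∃ ρ : Ordinal.{0}, ∃ z : ZFSet.{0}, ρ < κ.ord ∧
      (∀ ξ, ξ < ρ → ∃ c, fn z ξ = c ∧ c < σ) ∧
        ∀ b, b < σ → ∃ ξ, ξ < ρ ∧ ∃ c, fn z ξ = c ∧ b ≤ c := by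
  constructor
  · intro h
    have h1 : Order.cof (Set.Iio σ) = Cardinal.lift.{1} σ.cof := by
      rw [Ordinal.cof_Iio, ← lift_cof]
    obtain ⟨s, hs, hs'⟩ := Order.exists_cof_eq (Set.Iio σ)
    rw [h1] at hs'
    have h2 : Cardinal.mk (Set.Iio σ.cof.ord) = Cardinal.lift.{1} σ.cof := by
      rw [Cardinal.mk_Iio_ordinal, card_ord]
    obtain ⟨e⟩ := Cardinal.eq.1 (h2.trans hs'.symm)
    classical
    obtain ⟨z, hz, -⟩ := exists_fn (fun ξ => if hξ : ξ < σ.cof.ord then (e ⟨ξ, hξ⟩).1.1 else 0)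
      σ.cof.ord
    have hz' : ∀ ξ (hξ : ξ < σ.cof.ord), fn z ξ = (e ⟨ξ, hξ⟩).1.1 := by
      intro ξ hξ
      rw [hz ξ hξ, dif_pos hξ]
    refine ⟨σ.cof.ord, z, ord_lt_ord.2 h, fun ξ hξ => ⟨_, rfl, ?_⟩, fun b hb => ?_⟩
    · rw [hz' ξ hξ]
      exact (e ⟨ξ, hξ⟩).1.2
    · obtain ⟨c, hc, hbc⟩ := hs ⟨b, hb⟩
      refine ⟨(e.symm ⟨c, hc⟩).1, (e.symm ⟨c, hc⟩).2, _, rfl, ?_⟩
      rw [hz' _ (e.symm ⟨c, hc⟩).2]
      have h3 : e ⟨(e.symm ⟨c, hc⟩).1, (e.symm ⟨c, hc⟩).2⟩ = ⟨c, hc⟩ := e.apply_symm_apply _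
      rw [h3]
      exact hbc
  · rintro ⟨ρ, z, hρ, h1, h2⟩
    have hlt : ∀ ξ : Set.Iio ρ, fn z ξ.1 < σ := by
      rintro ⟨ξ, hξ⟩
      obtain ⟨c, hc, hc'⟩ := h1 ξ hξ
      show fn z ξ < σ
      rw [hc]
      exact hc'
    have hcof : IsCofinal (Set.range (fun ξ : Set.Iio ρ => (⟨fn z ξ.1, hlt ξ⟩ : Set.Iio σ))) := by
      intro b
      obtain ⟨ξ, hξ, c, hc, hbc⟩ := h2 b.1 b.2
      refine ⟨_, ⟨⟨ξ, hξ⟩, rfl⟩, ?_⟩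
      show b.1 ≤ fn z ξ
      rw [hc]
      exact hbc
    have h3 : Order.cof (Set.Iio σ) ≤ Cardinal.mk (Set.Iio ρ) :=
      (Order.cof_le hcof).trans Cardinal.mk_range_le
    rw [Ordinal.cof_Iio, ← lift_cof, Cardinal.mk_Iio_ordinal, Cardinal.lift_le] at h3
    exact h3.trans_lt (Cardinal.lt_ord.1 hρ)

theorem cf : StCF := by
  intro κ i
  refine DP.congr ?_ fun v => cof_lt_iff
  refine DP.exO (Q := fun ρ v => ∃ z : ZFSet.{0}, ρ < κ.ord ∧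
      (∀ ξ, ξ < ρ → ∃ c, fn z ξ = c ∧ c < (v i).rank) ∧
        ∀ b, b < (v i).rank → ∃ ξ, ξ < ρ ∧ ∃ c, fn z ξ = c ∧ b ≤ c) ?_
  refine DP.ex (Q := fun z v => (v 0).rank < κ.ord ∧
      (∀ ξ, ξ < (v 0).rank → ∃ c, fn z ξ = c ∧ c < (v (i + 1)).rank) ∧
        ∀ b, b < (v (i + 1)).rank → ∃ ξ, ξ < (v 0).rank ∧ ∃ c, fn z ξ = c ∧ b ≤ c) ?_
  refine (DP.rank_lt_ord 1 κ.ord).and (DP.and ?_ ?_)
  · refine DP.allO (Q := fun n v => n < (v 1).rank → ∃ c, fn (v 0) n = c ∧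
      c < (v (i + 2)).rank) ?_
    refine (DP.rank_lt 0 2).imp ?_
    refine DP.exO (Q := fun c v => fn (v 1) (v 0).rank = c ∧ c < (v (i + 3)).rank) ?_
    exact (DP.fn 2 1 0).and (DP.rank_lt 0 (i + 4))
  · refine DP.allO (Q := fun b v => b < (v (i + 2)).rank → ∃ n, n < (v 1).rank ∧
      ∃ c, fn (v 0) n = c ∧ b ≤ c) ?_
    refine (DP.rank_lt 0 (i + 3)).imp ?_
    refine DP.exO (Q := fun n v => n < (v 2).rank ∧ ∃ c, fn (v 1) n = c ∧ (v 0).rank ≤ c) ?_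
    refine (DP.rank_lt 0 3).and ?_
    refine DP.exO (Q := fun c v => fn (v 2) (v 0).rank = c ∧ (v 1).rank ≤ c) ?_
    exact (DP.fn 3 1 0).and (DP.rank_le 2 0)

end Pool.Agent.Helper14.HM
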