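import Pool.Agent.Helper73.HM.St

/-! # HM, module LE: the least ordinal definable subset with a property -/

namespace Pool.Agent.Helper14.HM

open Ordinal Cardinal ZFSet Order Pool.Agent.Helper73.HODC Pool.Agent.Helper73.HE
  Pool.Agent.Helper73.HM

theorem lexLt_irrefl (x : ZFSet.{0}) : ¬ LexLt x x := by
  rintro ⟨a, h1, h2, -⟩
  exact h2 h1

theorem lexLt_trans {x y z : ZFSet.{0}} (h1 : LexLt x y) (h2 : LexLt y z) : LexLt x z := by
  obtain ⟨a, ha, ha', ha''⟩ := h1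
  obtain ⟨b, hb, hb', hb''⟩ := h2
  rcases lt_trichotomy a b with h | h | h
  · exact ⟨a, (hb'' a h).1 ha, ha', fun c hc => (ha'' c hc).trans (hb'' c (hc.trans h))⟩
  · subst h
    exact absurd ha hb'
  · exact ⟨b, hb, fun h' => hb' ((ha'' b h).1 h'), fun c hc => (ha'' c (hc.trans h)).trans (hb'' c hc)⟩

theorem eq_of_not_lexLt {x y : ZFSet.{0}} (h1 : ¬ LexLt x y) (h2 : ¬ LexLt y x) (a : Ordinal.{0}) :
    a ∈ st x ↔ a ∈ st y := by
  induction a using WellFoundedLT.induction with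
  | ind a ih =>
    by_contra hne
    by_cases hx : a ∈ st x
    · have hy : a ∉ st y := fun hy => hne ⟨fun _ => hy, fun _ => hx⟩
      exact h2 ⟨a, hx, hy, fun b hb => (ih b hb).symm⟩
    · have hy : a ∈ st y := by
        by_contra hy
        exact hne ⟨fun h => absurd h hx, fun h => absurd h hy⟩
      exact h1 ⟨a, hy, hx, ih⟩

theorem lexLt_min {S : Set ZFSet.{0}} (hS : S.Finite) (hne : S.Nonempty) :
    ∃ x ∈ S, ∀ y ∈ S, ¬ LexLt y x := by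
  have h1 : IsStrictOrder ZFSet.{0} LexLt :=
    { irrefl := lexLt_irrefl, trans := fun _ _ _ => lexLt_trans }
  have h2 : S.WellFoundedOn LexLt := hS.wellFoundedOn
  obtain ⟨x0, hx0⟩ := hne
  obtain ⟨m, -, hm⟩ := WellFounded.has_min h2 Set.univ ⟨⟨x0, hx0⟩, trivial⟩
  exact ⟨m.1, m.2, fun y hy h => hm ⟨y, hy⟩ trivial h⟩

/-- an ordinal definable set is defined by a formula of rank `key2` in `V_θ`, `θ = key1` -/
theorem exists_key (h2 : StOZ) {x : ZFSet.{0}} (hx : OD x) :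
    ∃ φ : Fm, (code φ).rank = key2 x ∧ x ∈ V_ (key1 x) ∧
      ∀ y ∈ V_ (key1 x), Sat {z | z ∈ V_ (key1 x)} φ (fun _ => y) ↔ y = x := by
  obtain ⟨θ, c, hc⟩ := (h2 x).1 hx
  have h3 : ∃ c, Dz (key1 x) c x :=
    csInf_mem (s := {θ | ∃ c, Dz θ c x}) ⟨θ, c, hc⟩
  obtain ⟨c', hc'⟩ := h3
  have h4 : key2 x ∈ {n | ∃ c : ZFSet.{0}, c.rank = n ∧ Dz (key1 x) c x} :=
    csInf_mem ⟨c'.rank, c', rfl, hc'⟩
  obtain ⟨c'', hc1, φ, hφ, h5, h6⟩ := h4
  exact ⟨φ, by rw [hφ]; exact hc1, h5, h6⟩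

theorem le (h : StTC) (h2 : StOZ) : StLE := by
  constructor
  · rintro lam P x y ⟨⟨hx, hxl, hPx⟩, hx'⟩ ⟨⟨hy, hyl, hPy⟩, hy'⟩
    have h3 := hx' y hy hyl hPy
    have h4 := hy' x hx hxl hPx
    have e1 : key1 x = key1 y := by
      rcases lt_trichotomy (key1 x) (key1 y) with h | h | h
      · exact absurd (Or.inl h) h4
      · exact h
      · exact absurd (Or.inl h) h3
    have e2 : key2 x = key2 y := by
      rcases lt_trichotomy (key2 x) (key2 y) with h | h | h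
      · exact absurd (Or.inr ⟨e1, Or.inl h⟩) h4
      · exact h
      · exact absurd (Or.inr ⟨e1.symm, Or.inl h⟩) h3
    refine ext_st hxl hyl (eq_of_not_lexLt ?_ ?_)
    · exact fun h => h4 (Or.inr ⟨e1, Or.inr ⟨e2, h⟩⟩)
    · exact fun h => h3 (Or.inr ⟨e1.symm, Or.inr ⟨e2.symm, h⟩⟩)
  · rintro lam P ⟨x0, hx0⟩
    -- minimal `key1`
    obtain ⟨x1, hx1, hm1⟩ : ∃ x, (OD x ∧ x ⊆ lam.toZFSet ∧ P x) ∧
        ∀ y, (OD y ∧ y ⊆ lam.toZFSet ∧ P y) → key1 x ≤ key1 y := by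
      obtain ⟨θ, ⟨x, hx, rfl⟩, hmin⟩ := WellFounded.has_min
        (wellFounded_lt (α := Ordinal.{0})) (key1 '' {x | OD x ∧ x ⊆ lam.toZFSet ∧ P x})
        ⟨_, x0, hx0, rfl⟩
      exact ⟨x, hx, fun y hy => not_lt.1 (hmin _ ⟨y, hy, rfl⟩)⟩
    -- minimal `key2`
    obtain ⟨x2, hx2, e2, hm2⟩ : ∃ x, (OD x ∧ x ⊆ lam.toZFSet ∧ P x) ∧ key1 x = key1 x1 ∧
        ∀ y, (OD y ∧ y ⊆ lam.toZFSet ∧ P y) → key1 y = key1 x1 → key2 x ≤ key2 y := by
      obtain ⟨n, ⟨x, hx, rfl⟩, hmin⟩ := WellFounded.has_min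
        (wellFounded_lt (α := Ordinal.{0}))
        (key2 '' {x | (OD x ∧ x ⊆ lam.toZFSet ∧ P x) ∧ key1 x = key1 x1})
        ⟨_, x1, ⟨hx1, rfl⟩, rfl⟩
      exact ⟨x, hx.1, hx.2, fun y hy hy' => not_lt.1 (hmin _ ⟨y, ⟨hy, hy'⟩, rfl⟩)⟩
    -- the finite set
    set S : Set ZFSet.{0} := {x | (OD x ∧ x ⊆ lam.toZFSet ∧ P x) ∧ key1 x = key1 x1 ∧
      key2 x = key2 x2} with hS
    have hfin : S.Finite := by
      have h5 : ∀ x : S, ∃ φ : Fm, (code φ).rank = key2 x2 ∧ x.1 ∈ V_ (key1 x1) ∧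
          ∀ y ∈ V_ (key1 x1), Sat {z | z ∈ V_ (key1 x1)} φ (fun _ => y) ↔ y = x.1 := by
        rintro ⟨x, hx, h6, h7⟩
        have := exists_key h2 hx.1
        rw [h6, h7] at this
        exact this
      choose f hf1 hf2 hf3 using h5
      have hfin' : {φ : Fm | (code φ).rank = key2 x2}.Finite := h.2.1 _
      have : Finite {φ : Fm | (code φ).rank = key2 x2} := hfin'
      have hinj : Function.Injective
          (fun x : S => (⟨f x, hf1 x⟩ : {φ : Fm | (code φ).rank = key2 x2})) := by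
        intro x y hxy
        have h8 : f x = f y := congrArg Subtype.val hxy
        apply Subtype.ext
        have h9 := (hf3 x x.1 (hf2 x)).2 rfl
        rw [h8] at h9
        exact (hf3 y x.1 (hf2 x)).1 h9
      exact Set.finite_coe_iff.1 (Finite.of_injective _ hinj)
    obtain ⟨x, hx, hmin⟩ := lexLt_min hfin ⟨x2, hx2, e2, rfl⟩
    refine ⟨x, hx.1, fun y h6 h7 h8 hless => ?_⟩
    rcases hless with h9 | ⟨h9, h10 | ⟨h10, h11⟩⟩
    · rw [hx.2.1] at h9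
      exact absurd h9 (not_lt.2 (hm1 y ⟨h6, h7, h8⟩))
    · rw [hx.2.2] at h10
      exact absurd h10 (not_lt.2 (hm2 y ⟨h6, h7, h8⟩ (h9.trans hx.2.1)))
    · exact hmin y ⟨⟨h6, h7, h8⟩, h9.trans hx.2.1, h10.trans hx.2.2⟩ h11

end Pool.Agent.Helper14.HM
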